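import Pool.Agent.N303.LS.Stm3
import Pool.Agent.N362.LS.ENA

/-!
# Project LM (helper303), MP_ee74d2_an: the derivatives in time of the pieces (helper234)
-/

set_option autoImplicit false

namespace Pool.Agent.N234.LS

open MeasureTheory Pool.Agent.N303.LS Pool.Agent.N362.LS
open scoped ENNReal FourierTransform RealInnerProductSpace SchwartzMap

variable {d : ℕ}

lemma cont_psi (K : 𝓢(E d, ℂ)) (A : Finset (Fin d → ℤ)) : Continuous (psi K A) := by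
  unfold psi
  exact continuous_finset_sum _ fun m _ => (cont_G K).comp (continuous_id.sub continuous_const)

/-- the bound of `psi` -/
noncomputable def cK (K : 𝓢(E d, ℂ)) (A : Finset (Fin d → ℤ)) : ℝ := A.card * ∫ x, ‖K x‖

lemma cK_nonneg (K : 𝓢(E d, ℂ)) (A : Finset (Fin d → ℤ)) : 0 ≤ cK K A :=
  mul_nonneg (Nat.cast_nonneg _) (integral_nonneg fun _ => norm_nonneg _)

lemma psi_le (K : 𝓢(E d, ℂ)) (A : Finset (Fin d → ℤ)) (ξ : E d) : ‖psi K A ξ‖ ≤ cK K A := by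
  have hb : ∀ ξ, ‖𝓕 (K : E d → ℂ) ξ‖ ≤ ∫ x, ‖K x‖ := fun ξ =>
    VectorFourier.norm_fourierIntegral_le_integral_norm _ _ _ _ _
  unfold psi cK
  refine (norm_sum_le _ _).trans ((Finset.sum_le_sum fun m _ => hb _).trans ?_)
  rw [Finset.sum_const, nsmul_eq_mul]

/-- the integrand -/
noncomputable def jg (K : 𝓢(E d, ℂ)) (A : Finset (Fin d → ℤ)) (g : 𝓢(E d, ℂ))
    (s : ℝ → E d → ℂ) (t : ℝ) (x ξ : E d) : ℂ :=
  ex x ξ * (psi K A ξ * (s t ξ * 𝓕 (g : E d → ℂ) ξ))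

variable (K : 𝓢(E d, ℂ)) (A : Finset (Fin d → ℤ)) (g : 𝓢(E d, ℂ))

lemma jg_meas {s : ℝ → E d → ℂ} (t : ℝ) (h : Measurable (s t)) (x : E d) :
    AEStronglyMeasurable (jg K A g s t x) := by
  have h1 : Measurable fun ξ => ex x ξ :=
    (cont_ex.comp (Continuous.prodMk_right x)).measurable
  exact (h1.mul ((cont_psi K A).measurable.mul (h.mul (cont_G g).measurable))).aestronglyMeasurable

lemma jg_bd {s : ℝ → E d → ℂ} (t : ℝ) (c : ℝ) (x ξ : E d)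
    (h : ‖s t ξ‖ ≤ c * (1 + 2 * Real.pi * ‖ξ‖)) :
    ‖jg K A g s t x ξ‖ ≤ cK K A * c * dom g ξ := by
  rw [jg, norm_mul, norm_mul, norm_mul, norm_ex, one_mul, dom]
  calc ‖psi K A ξ‖ * (‖s t ξ‖ * ‖𝓕 (g : E d → ℂ) ξ‖)
      ≤ cK K A * ((c * (1 + 2 * Real.pi * ‖ξ‖)) * ‖𝓕 (g : E d → ℂ) ξ‖) :=
        mul_le_mul (psi_le K A ξ) (mul_le_mul_of_nonneg_right h (norm_nonneg _))
          (by positivity) (cK_nonneg K A)
    _ = cK K A * c * ((1 + 2 * Real.pi * ‖ξ‖) * ‖𝓕 (g : E d → ℂ) ξ‖) := by ring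

lemma jg_int {s : ℝ → E d → ℂ} (t : ℝ) (hm : Measurable (s t)) (c : ℝ) (x : E d)
    (h : ∀ ξ, ‖s t ξ‖ ≤ c * (1 + 2 * Real.pi * ‖ξ‖)) :
    Integrable (jg K A g s t x) :=
  Integrable.mono' ((int_dom g).const_mul _) (jg_meas K A g t hm x)
    (Filter.Eventually.of_forall fun ξ => jg_bd K A g t c x ξ (h ξ))

/-- differentiation in `t` -/
lemma jg_dt {s s' : ℝ → E d → ℂ} (hm : ∀ t, Measurable (s t)) (c : ℝ → ℝ)
    (hb : ∀ t ξ, ‖s t ξ‖ ≤ c t * (1 + 2 * Real.pi * ‖ξ‖)) (h' : Sy s')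
    (hd : ∀ᵐ ξ : E d, ∀ t, HasDerivAt (fun r => s r ξ) (s' t ξ) t) (t : ℝ) (x : E d) :
    HasDerivAt (fun r => ∫ ξ, jg K A g s r x ξ) (∫ ξ, jg K A g s' t x ξ) t := by
  refine (hasDerivAt_integral_of_dominated_loc_of_deriv_le (F := fun r ξ => jg K A g s r x ξ)
    (F' := fun r ξ => jg K A g s' r x ξ) (bound := fun ξ => cK K A * 1 * dom g ξ) Filter.univ_mem
    (Filter.Eventually.of_forall fun r => jg_meas K A g r (hm r) x)
    (jg_int K A g t (hm t) (c t) x (hb t)) (jg_meas K A g t (h'.meas t) x)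
    (Filter.Eventually.of_forall fun ξ r _ => jg_bd K A g r 1 x ξ (by
      rw [one_mul]
      exact h'.bd r ξ)) ((int_dom g).const_mul _)
    (hd.mono fun ξ hξ r _ => ?_)).2
  exact (((hξ r).mul_const _).const_mul _).const_mul _

lemma fourier_dj (j : Fin d) (ξ : E d) :
    𝓕 (dj j g : E d → ℂ) ξ = ((2 * Real.pi * ξ j : ℝ) : ℂ) * Complex.I * 𝓕 (g : E d → ℂ) ξ := by
  have e3 : 𝓕 (dj j g : E d → ℂ) ξ = (𝓕 (dj j g) : 𝓢(E d, ℂ)) ξ := by rw [SchwartzMap.fourier_coe]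
  rw [e3]
  unfold dj
  simp only [SchwartzMap.fourier_lineDerivOp_eq]
  have ht : (fun x : E d => inner ℝ x (EuclideanSpace.single j (1 : ℝ))).HasTemperateGrowth :=
    ((innerSL ℝ).flip (EuclideanSpace.single j (1 : ℝ))).hasTemperateGrowth
  simp only [smul_apply, SchwartzMap.smulLeftCLM_apply_apply ht]
  rw [SchwartzMap.fourier_coe]
  have h3 : inner ℝ ξ (EuclideanSpace.single j (1 : ℝ)) = ξ j := by
    simp [EuclideanSpace.inner_single_right]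
  rw [h3, smul_eq_mul, Complex.real_smul]
  push_cast
  ring

lemma sn_le (t : ℝ) (ξ : E d) : ‖sn t ξ‖ ≤ |t| * (1 + 2 * Real.pi * ‖ξ‖) := by
  have h0 : ‖sn t ξ‖ ≤ |t| := by
    unfold sn
    rw [Complex.norm_real, Real.norm_eq_abs, abs_div]
    rcases eq_or_ne ‖ξ‖ 0 with h | h
    · simp [h]
    · have hpos : 0 < ‖ξ‖ := lt_of_le_of_ne (norm_nonneg _) (Ne.symm h)
      rw [div_le_iff₀ (abs_pos.2 (by positivity))]
      calc |Real.sin (2 * Real.pi * t * ‖ξ‖)| ≤ |2 * Real.pi * t * ‖ξ‖| := Real.abs_sin_le_abs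
        _ = |t| * |2 * Real.pi * ‖ξ‖| := by
          rw [← abs_mul]
          congr 1
          ring
  have h2 : 0 ≤ |t| * (2 * Real.pi * ‖ξ‖) := by positivity
  nlinarith

lemma sy_le {s : ℝ → E d → ℂ} (h : Sy s) (t : ℝ) (ξ : E d) :
    ‖s t ξ‖ ≤ (fun _ => (1 : ℝ)) t * (1 + 2 * Real.pi * ‖ξ‖) := by
  show ‖s t ξ‖ ≤ 1 * (1 + 2 * Real.pi * ‖ξ‖)
  rw [one_mul]
  exact h.bd t ξ

lemma hd_sn (ξ : E d) (h0 : ξ ≠ 0) (t : ℝ) : HasDerivAt (fun r => sn r ξ) (cs t ξ) t := by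
  have hpos : 0 < ‖ξ‖ := norm_pos_iff.mpr h0
  have hne : 2 * Real.pi * ‖ξ‖ ≠ 0 := by positivity
  have h := (((hd_arg ‖ξ‖ t).sin).div_const (2 * Real.pi * ‖ξ‖)).ofReal_comp
  rw [mul_div_assoc, div_self hne, mul_one] at h
  exact h

lemma ae_ne (hd : 0 < d) : ∀ᵐ ξ : E d, ξ ≠ 0 := by
  haveI : Nonempty (Fin d) := ⟨⟨0, hd⟩⟩
  haveI : Nontrivial (E d) := inferInstance
  have h : volume ({0} : Set (E d)) = 0 := measure_singleton 0
  rw [ae_iff]
  simpa using h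

theorem t_dt : S_DT := by
  intro d hd K A g x t
  have ea : ∀ j : Fin d, pc K A (Sum.inl j) (dj j g) t x = ∫ ξ, jg K A g (m2 j) t x ξ := by
    intro j
    unfold pc inv
    refine integral_congr_ae (Filter.Eventually.of_forall fun ξ => ?_)
    simp only [jg, ex, sym, m2, m0]
    rw [fourier_dj]
    ring
  refine ⟨?_, ?_, fun j => ?_⟩
  · have h1 := jg_dt K A g sy_cs.meas (fun _ => 1) (sy_le sy_cs) sy_m3
      (Filter.Eventually.of_forall fun ξ t => hd_cs t ξ) t x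
    have h2 : ∑ j, pc K A (Sum.inl j) (dj j g) t x = ∫ ξ, jg K A g m3 t x ξ := by
      rw [Finset.sum_congr rfl fun j _ => ea j, ← integral_finsetSum _ fun j _ =>
        jg_int K A g t ((sy_m2 j).meas t) 1 x (fun ξ => sy_le (sy_m2 j) t ξ)]
      refine integral_congr_ae (Filter.Eventually.of_forall fun ξ => ?_)
      simp only [jg]
      rw [← Finset.mul_sum, ← Finset.mul_sum, ← Finset.sum_mul, sum_m2]
    rw [h2]
    exact h1
  · exact jg_dt K A g meas_sn (fun t => |t|) sn_le sy_cs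
      ((ae_ne hd).mono fun ξ hξ t => hd_sn ξ hξ t) t x
  · have h1 := jg_dt K A g (sy_m0 j).meas (fun _ => 1) (sy_le (sy_m0 j)) (sy_m1 j)
      (Filter.Eventually.of_forall fun ξ t => hd_m0 j t ξ) t x
    have h2 : pc K A (Sum.inr true) (dj j g) t x = ∫ ξ, jg K A g (m1 j) t x ξ := by
      unfold pc inv
      refine integral_congr_ae (Filter.Eventually.of_forall fun ξ => ?_)
      simp only [jg, ex, sym, m1]
      rw [fourier_dj]
      ring
    rw [h2]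
    exact h1

end Pool.Agent.N234.LS
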